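import Pool.Agent.Helper15.T4.Stmts

set_option autoImplicit false

open Finset MeasureTheory Filter Topology

namespace Pool.Agent.Helper67.T4

open Pool.Agent.Helper15.T4

lemma nsq_smul_a {ι : Type} [Fintype ι] (R : ℝ) (y : ι → ℝ) : nsq (R • y) = R ^ 2 * nsq y := by
  unfold nsq
  rw [Finset.mul_sum]
  refine Finset.sum_congr rfl fun i _ => ?_
  simp only [Pi.smul_apply, smul_eq_mul]
  ring

lemma nsq_nonneg_a {ι : Type} [Fintype ι] (y : ι → ℝ) : 0 ≤ nsq y :=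
  Finset.sum_nonneg fun i _ => sq_nonneg (y i)

lemma cont_nsq_a {ι : Type} [Fintype ι] : Continuous (nsq : (ι → ℝ) → ℝ) := by
  unfold nsq
  fun_prop

lemma mem_ball_a {ι : Type} [Fintype ι] (y : ι → ℝ) (h : nsq y ≤ 1) :
    y ∈ Metric.closedBall (0 : ι → ℝ) 1 := by
  rw [mem_closedBall_zero_iff, pi_norm_le_iff_of_nonneg zero_le_one]
  intro i
  have h1 : y i ^ 2 ≤ 1 := by
    refine le_trans ?_ h
    exact Finset.single_le_sum (f := fun i => y i ^ 2) (fun j _ => sq_nonneg (y j)) (Finset.mem_univ i)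
  rw [Real.norm_eq_abs]
  exact abs_le_one_iff_mul_self_le_one.mpr (by nlinarith)

lemma bound_a {ι : Type} [Fintype ι] (v f : ℕ) (Φ : (ι → ℝ) → ℂ) (hvf : 2 * f ≤ 3 * v)
    (hc : Continuous Φ)
    (hh : ∀ (s : ℝ) (x : ι → ℝ), Φ (s • x) = (s : ℂ) ^ (3 * v - 2 * f) * Φ x) :
    ∃ C : ℝ, ∀ y, ‖Φ y * ((Real.exp (-(3 / 2) * v * nsq y) : ℝ) : ℂ)‖ ≤ C := by
  obtain ⟨C, hC⟩ := (isCompact_closedBall (0 : ι → ℝ) 1).exists_bound_of_continuousOn hc.continuousOn
  have hC0 : 0 ≤ C := le_trans (norm_nonneg _) (hC 0 (by simp))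
  refine ⟨C, fun y => ?_⟩
  rw [norm_mul, Complex.norm_real, Real.norm_eq_abs, abs_of_pos (Real.exp_pos _)]
  by_cases hy : nsq y ≤ 1
  · have h1 := hC y (mem_ball_a y hy)
    have h2 : Real.exp (-(3 / 2) * v * nsq y) ≤ 1 := by
      rw [Real.exp_le_one_iff]
      have := nsq_nonneg_a y
      have hv : (0 : ℝ) ≤ v := Nat.cast_nonneg v
      have : 0 ≤ (v : ℝ) * nsq y := mul_nonneg hv this
      nlinarith
    calc ‖Φ y‖ * Real.exp (-(3 / 2) * v * nsq y) ≤ C * 1 :=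
          mul_le_mul h1 h2 (Real.exp_pos _).le hC0
      _ = C := mul_one C
  · push Not at hy
    set r := Real.sqrt (nsq y) with hr
    have hr0 : 0 < r := Real.sqrt_pos.mpr (by linarith)
    have hr2 : r ^ 2 = nsq y := Real.sq_sqrt (nsq_nonneg_a y)
    have h1 : Φ y = (r : ℂ) ^ (3 * v - 2 * f) * Φ (r⁻¹ • y) := by
      rw [← hh r (r⁻¹ • y), smul_smul, mul_inv_cancel₀ hr0.ne', one_smul]
    have h2 : ‖Φ (r⁻¹ • y)‖ ≤ C := by
      apply hC
      apply mem_ball_a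
      rw [nsq_smul_a, ← hr2, ← mul_pow, inv_mul_cancel₀ hr0.ne', one_pow]
    have h3 : r ≤ Real.exp (nsq y / 2) := by
      have h4 : r ^ 2 ≤ (Real.exp (nsq y / 2)) ^ 2 := by
        rw [← Real.exp_nat_mul, hr2]
        have := Real.add_one_le_exp (nsq y)
        have h5 : ((2 : ℕ) : ℝ) * (nsq y / 2) = nsq y := by push_cast; ring
        rw [h5]
        linarith
      exact (pow_le_pow_iff_left₀ hr0.le (Real.exp_pos _).le two_ne_zero).mp h4
    have h4 : r ^ (3 * v - 2 * f) ≤ Real.exp (3 / 2 * v * nsq y) := by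
      calc r ^ (3 * v - 2 * f) ≤ (Real.exp (nsq y / 2)) ^ (3 * v - 2 * f) :=
            pow_le_pow_left₀ hr0.le h3 _
        _ = Real.exp (((3 * v - 2 * f : ℕ) : ℝ) * (nsq y / 2)) := by rw [← Real.exp_nat_mul]
        _ ≤ Real.exp (3 / 2 * v * nsq y) := by
            apply Real.exp_le_exp.mpr
            have h5 : ((3 * v - 2 * f : ℕ) : ℝ) ≤ 3 * v := by
              have : (3 * v - 2 * f : ℕ) ≤ 3 * v := Nat.sub_le _ _
              exact_mod_cast this
            have h6 := nsq_nonneg_a y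
            nlinarith
    rw [h1, norm_mul, norm_pow, Complex.norm_real, Real.norm_eq_abs, abs_of_pos hr0]
    calc r ^ (3 * v - 2 * f) * ‖Φ (r⁻¹ • y)‖ * Real.exp (-(3 / 2) * v * nsq y)
        ≤ Real.exp (3 / 2 * v * nsq y) * C * Real.exp (-(3 / 2) * v * nsq y) := by
          apply mul_le_mul_of_nonneg_right _ (Real.exp_pos _).le
          exact mul_le_mul h4 h2 (norm_nonneg _) (Real.exp_pos _).le
      _ = C * (Real.exp (3 / 2 * v * nsq y) * Real.exp (-(3 / 2) * v * nsq y)) := by ring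
      _ = C := by
          rw [← Real.exp_add]
          have : (3 / 2 * v * nsq y + -(3 / 2) * v * nsq y : ℝ) = 0 := by ring
          rw [this, Real.exp_zero, mul_one]

lemma null_a {ι : Type} [Fintype ι] (u : ι → ℝ) (hu : nsq u = 1) :
    volume {y : ι → ℝ | ∑ i, u i * y i = 0} = 0 := by
  let L : (ι → ℝ) →ₗ[ℝ] ℝ :=
    { toFun := fun y => ∑ i, u i * y i
      map_add' := fun x y => by
        simp only [Pi.add_apply, mul_add, Finset.sum_add_distrib]
      map_smul' := fun s x => by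
        simp only [Pi.smul_apply, smul_eq_mul, RingHom.id_apply, Finset.mul_sum]
        exact Finset.sum_congr rfl fun i _ => by ring }
  have h1 : LinearMap.ker L ≠ ⊤ := by
    intro h
    have h2 : u ∈ LinearMap.ker L := by rw [h]; trivial
    have h3 : ∑ i, u i * u i = 0 := h2
    have h4 : nsq u = ∑ i, u i * u i := Finset.sum_congr rfl fun i _ => by ring
    rw [h4, h3] at hu
    exact zero_ne_one hu
  have h2 := Measure.addHaar_submodule (volume : Measure (ι → ℝ)) (LinearMap.ker L) h1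
  exact h2

lemma even_a {ι : Type} [Fintype ι] (u : ι → ℝ) (hu : nsq u = 1) (G : (ι → ℝ) → ℂ)
    (hG : ∀ y, G (-y) = G y) :
    ∫ y, G y = 2 * ∫ y in {y : ι → ℝ | 0 < ∑ i, u i * y i}, G y := by
  set A : Set (ι → ℝ) := {y | 0 < ∑ i, u i * y i} with hA
  set B : Set (ι → ℝ) := {y | ∑ i, u i * y i < 0} with hB
  have hcf : Continuous (fun y : ι → ℝ => ∑ i, u i * y i) := by fun_prop
  have hAm : MeasurableSet A := (isOpen_lt continuous_const hcf).measurableSet
  have hBm : MeasurableSet B := (isOpen_lt hcf continuous_const).measurableSet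
  have hd : Disjoint A B := by
    rw [Set.disjoint_left]
    intro y h1 h2
    exact lt_asymm (show (0 : ℝ) < _ from h1) (show _ < (0 : ℝ) from h2)
  have hpre : (fun y : ι → ℝ => -y) ⁻¹' A = B := by
    ext y
    simp only [hA, hB, Set.mem_preimage, Set.mem_ofPred_eq, Pi.neg_apply, mul_neg,
      Finset.sum_neg_distrib]
    exact neg_pos
  have hmp : MeasurePreserving (fun y : ι → ℝ => -y) volume volume :=
    Measure.measurePreserving_neg volume
  have hemb : MeasurableEmbedding (fun y : ι → ℝ => -y) :=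
    (MeasurableEquiv.neg (ι → ℝ)).measurableEmbedding
  have hBA : ∫ y in B, G y = ∫ y in A, G y := by
    have h1 := hmp.setIntegral_preimage_emb hemb G A
    rw [hpre] at h1
    rw [← h1]
    exact setIntegral_congr_fun hBm fun y _ => (hG y).symm
  have hint : IntegrableOn G A ↔ IntegrableOn G B := by
    have h1 := hmp.integrableOn_comp_preimage hemb (f := G) (s := A)
    rw [hpre] at h1
    rw [← h1]
    have h2 : G ∘ (fun y : ι → ℝ => -y) = G := funext hG
    rw [h2]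
  have hae : ∀ᵐ y : ι → ℝ, y ∈ A ∪ B := by
    rw [ae_iff]
    have h1 : {y : ι → ℝ | ¬ y ∈ A ∪ B} = {y : ι → ℝ | ∑ i, u i * y i = 0} := by
      ext y
      simp only [hA, hB, Set.mem_union, Set.mem_ofPred_eq, not_or, not_lt]
      constructor
      · rintro ⟨h1, h2⟩; exact le_antisymm h1 h2
      · intro h; rw [h]; exact ⟨le_refl _, le_refl _⟩
    rw [h1]
    exact null_a u hu
  have hres : (volume : Measure (ι → ℝ)).restrict (A ∪ B) = volume :=
    Measure.restrict_eq_self_of_ae_mem hae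
  have h0 : ∫ y, G y = ∫ y in A ∪ B, G y := by rw [hres]
  rw [h0]
  by_cases hi : IntegrableOn G A
  · rw [setIntegral_union hd hBm hi (hint.mp hi), hBA]
    ring
  · have h1 : ¬ IntegrableOn G (A ∪ B) := fun h => hi (h.mono_set Set.subset_union_left)
    rw [integral_undef h1, integral_undef hi, mul_zero]

theorem ASY (hLAP : ST_LAP) : ST_ASY := by
  intro ι _ P u q Q hP v f Φ hvf hΦc hΦh
  let h : (ι → ℝ) → ℂ := fun y => Φ y * ((Real.exp (-(3 / 2) * v * nsq y) : ℝ) : ℂ)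
  have hcont : Continuous h := by
    have h1 : Continuous (fun y : ι → ℝ => ((Real.exp (-(3 / 2) * v * nsq y) : ℝ) : ℂ)) :=
      Complex.continuous_ofReal.comp (Real.continuous_exp.comp (continuous_const.mul cont_nsq_a))
    exact hΦc.mul h1
  have key := hLAP ι P u q Q hP v h hcont (bound_a v f Φ hvf hΦc hΦh)
  have h2N : Tendsto (fun N : ℕ => 2 * N) atTop atTop :=
    tendsto_atTop_mono (fun N : ℕ => (by omega : N ≤ 2 * N)) tendsto_id
  have key2 := key.comp h2N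
  have key3 := key2.const_mul
    (2 * (((3 / (2 * Real.pi)) ^ ((Fintype.card ι : ℝ) / 2) : ℝ) : ℂ))
  have hlim : 2 * (((3 / (2 * Real.pi)) ^ ((Fintype.card ι : ℝ) / 2) : ℝ) : ℂ) *
      (h u / ((q * Real.exp (-(3 / 2)) : ℝ) : ℂ) ^ v * GG Q) =
      2 * (((3 / (2 * Real.pi)) ^ ((Fintype.card ι : ℝ) / 2) : ℝ) : ℂ) * GG Q * Φ u / (q : ℂ) ^ v := by
    have hq : (q : ℂ) ≠ 0 := by exact_mod_cast hP.q0.ne'
    have he : ((Real.exp (-(3 / 2)) : ℝ) : ℂ) ≠ 0 := by exact_mod_cast (Real.exp_pos _).ne'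
    have h1 : h u = Φ u * ((Real.exp (-(3 / 2)) : ℝ) : ℂ) ^ v := by
      show Φ u * _ = _
      rw [hP.u1]
      congr 1
      rw [← Complex.ofReal_pow, ← Real.exp_nat_mul]
      congr 2
      ring
    rw [h1]
    push_cast
    rw [mul_pow]
    push_cast at he
    field_simp
  rw [hlim] at key3
  refine key3.congr' ?_
  filter_upwards [eventually_ge_atTop (v + 1)] with N hN
  have hN1 : (0 : ℝ) < N := by exact_mod_cast (by omega : 0 < N)
  simp only [Function.comp]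
  set R := Real.sqrt (6 * (N : ℝ)) with hR
  have h6N : (0 : ℝ) < 6 * (N : ℝ) := by positivity
  have hR0 : 0 < R := Real.sqrt_pos.mpr h6N
  have hR2 : R ^ 2 = 6 * (N : ℝ) := Real.sq_sqrt h6N.le
  let G : (ι → ℝ) → ℂ := fun y =>
    (P y * ((Real.exp (-(3 / 2) * nsq y) : ℝ) : ℂ)) ^ (2 * N - v) * h y
  let F : (ι → ℝ) → ℂ := fun x => P x ^ (2 * N - v) * Φ x * ((Real.exp (-(nsq x) / 2) : ℝ) : ℂ)
  have hFG : ∀ y, F (R • y) = (R : ℂ) ^ (6 * N - 2 * f) * G y := by
    intro y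
    show P (R • y) ^ (2 * N - v) * Φ (R • y) * ((Real.exp (-(nsq (R • y)) / 2) : ℝ) : ℂ) =
      (R : ℂ) ^ (6 * N - 2 * f) * ((P y * ((Real.exp (-(3 / 2) * nsq y) : ℝ) : ℂ)) ^ (2 * N - v) *
        (Φ y * ((Real.exp (-(3 / 2) * v * nsq y) : ℝ) : ℂ)))
    have e1 : Real.exp (-(nsq (R • y)) / 2) =
        Real.exp (-(3 / 2) * nsq y) ^ (2 * N - v) * Real.exp (-(3 / 2) * v * nsq y) := by
      rw [← Real.exp_nat_mul, ← Real.exp_add, nsq_smul_a, hR2]
      congr 1
      have : ((2 * N - v : ℕ) : ℝ) = 2 * N - v := by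
        rw [Nat.cast_sub (by omega)]; push_cast; ring
      rw [this]
      ring
    have e2 : 6 * N - 2 * f = 3 * (2 * N - v) + (3 * v - 2 * f) := by omega
    rw [hP.hom, hΦh, e1, e2, pow_add, pow_mul]
    push_cast
    ring
  have hD : Module.finrank ℝ (ι → ℝ) = Fintype.card ι := Module.finrank_fintype_fun_eq_card ℝ
  have hint : ∫ x, F x = ((R ^ (Fintype.card ι) : ℝ) : ℂ) * ((R : ℂ) ^ (6 * N - 2 * f) * ∫ y, G y) := by
    have h1 := Measure.integral_comp_smul (volume : Measure (ι → ℝ)) F R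
    rw [hD] at h1
    have h2 : ∫ x : ι → ℝ, F (R • x) = (R : ℂ) ^ (6 * N - 2 * f) * ∫ y, G y := by
      rw [← integral_const_mul]
      exact integral_congr_ae (Eventually.of_forall hFG)
    rw [← h2, h1, abs_of_pos (by positivity), Complex.real_smul, ← mul_assoc, ← Complex.ofReal_mul,
      mul_inv_cancel₀ (by positivity), Complex.ofReal_one, one_mul]
  have hGe : ∀ y, G (-y) = G y := by
    intro y
    show (P (-y) * ((Real.exp (-(3 / 2) * nsq (-y)) : ℝ) : ℂ)) ^ (2 * N - v) *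
        (Φ (-y) * ((Real.exp (-(3 / 2) * v * nsq (-y)) : ℝ) : ℂ)) =
      (P y * ((Real.exp (-(3 / 2) * nsq y) : ℝ) : ℂ)) ^ (2 * N - v) *
        (Φ y * ((Real.exp (-(3 / 2) * v * nsq y) : ℝ) : ℂ))
    have e0 : nsq (-y) = nsq y := by
      unfold nsq
      exact Finset.sum_congr rfl fun i _ => by simp
    have e1 : P (-y) = -1 * P y := by
      have := hP.hom (-1) y
      rw [neg_one_smul] at this
      rw [this]
      push_cast
      ring
    have e2 : Φ (-y) = (-1) ^ (3 * v - 2 * f) * Φ y := by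
      have := hΦh (-1) y
      rw [neg_one_smul] at this
      rw [this]
      push_cast
      ring
    rw [e0, e1, e2]
    have e3 : ((-1 : ℂ)) ^ (2 * N - v) * (-1) ^ (3 * v - 2 * f) = 1 := by
      rw [← pow_add]
      have : 2 * N - v + (3 * v - 2 * f) = 2 * (N + v - f) := by omega
      rw [this, pow_mul]
      norm_num
    rw [mul_assoc (-1 : ℂ), mul_pow (-1 : ℂ)]
    calc _ = ((-1 : ℂ)) ^ (2 * N - v) * (-1) ^ (3 * v - 2 * f) *
          ((P y * ((Real.exp (-(3 / 2) * nsq y) : ℝ) : ℂ)) ^ (2 * N - v) *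
          (Φ y * ((Real.exp (-(3 / 2) * v * nsq y) : ℝ) : ℂ))) := by ring
      _ = _ := by rw [e3, one_mul]
  have hev := even_a u hP.u1 G hGe
  have hGI : GI (fun x => P x ^ (2 * N - v) * Φ x) =
      (((2 * Real.pi) ^ (-(Fintype.card ι : ℝ) / 2) : ℝ) : ℂ) * ∫ x, F x := rfl
  rw [hGI, hint, hev]
  show _ * ((((2 * N : ℕ) : ℝ) ^ ((Fintype.card ι : ℝ) / 2) / (q * Real.exp (-(3 / 2))) ^ (2 * N) : ℝ) *
    ∫ y in {y : ι → ℝ | 0 < ∑ i, u i * y i}, G y) = _
  set I := ∫ y in {y : ι → ℝ | 0 < ∑ i, u i * y i}, G y with hI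
  have hpi : (0 : ℝ) < 2 * Real.pi := by positivity
  have r1 : (3 / (2 * Real.pi)) ^ ((Fintype.card ι : ℝ) / 2) * ((2 * N : ℕ) : ℝ) ^ ((Fintype.card ι : ℝ) / 2)
      = (2 * Real.pi) ^ (-(Fintype.card ι : ℝ) / 2) * R ^ (Fintype.card ι) := by
    have a1 : R ^ (Fintype.card ι) = (6 * (N : ℝ)) ^ ((Fintype.card ι : ℝ) / 2) := by
      rw [hR, Real.sqrt_eq_rpow, ← Real.rpow_natCast, ← Real.rpow_mul h6N.le]
      congr 1
      ring
    rw [a1, neg_div, Real.rpow_neg hpi.le, ← Real.mul_rpow (by positivity) (by positivity),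
      ← Real.inv_rpow hpi.le, ← Real.mul_rpow (by positivity) (by positivity)]
    congr 1
    push_cast
    field_simp
    ring
  have r2 : (R : ℝ) ^ (6 * N - 2 * f) * (6 * (N : ℝ)) ^ f / NF q N = 1 / (q * Real.exp (-(3 / 2))) ^ (2 * N) := by
    have a1 : R ^ (6 * N - 2 * f) = (6 * (N : ℝ)) ^ (3 * N - f) := by
      have : 6 * N - 2 * f = 2 * (3 * N - f) := by omega
      rw [this, pow_mul, hR2]
    have a2 : (6 * (N : ℝ)) ^ (3 * N - f) * (6 * (N : ℝ)) ^ f = (6 * (N : ℝ)) ^ (3 * N) := by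
      rw [← pow_add]
      congr 1
      omega
    have a3 : (q * Real.exp (-(3 / 2))) ^ (2 * N) = (q ^ 2 * Real.exp (-3)) ^ N := by
      rw [pow_mul, mul_pow, ← Real.exp_nat_mul]
      congr 3
      push_cast
      ring
    have a4 : (q ^ 2 * Real.exp (-3)) ^ N ≠ 0 := by
      have := hP.q0
      positivity
    rw [a1, a2, a3]
    unfold NF
    field_simp
  have r1c : (((3 / (2 * Real.pi)) ^ ((Fintype.card ι : ℝ) / 2) : ℝ) : ℂ) *
      ((((2 * N : ℕ) : ℝ) ^ ((Fintype.card ι : ℝ) / 2) : ℝ) : ℂ) =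
      (((2 * Real.pi) ^ (-(Fintype.card ι : ℝ) / 2) : ℝ) : ℂ) * ((R ^ (Fintype.card ι) : ℝ) : ℂ) := by
    rw [← Complex.ofReal_mul, ← Complex.ofReal_mul, r1]
  have r2c : (R : ℂ) ^ (6 * N - 2 * f) * (((6 * (N : ℝ)) ^ f : ℝ) : ℂ) / ((NF q N : ℝ) : ℂ) =
      1 / (((q * Real.exp (-(3 / 2))) ^ (2 * N) : ℝ) : ℂ) := by
    rw [← Complex.ofReal_pow, ← Complex.ofReal_mul, ← Complex.ofReal_div, r2, Complex.ofReal_div,
      Complex.ofReal_one]
  calc 2 * (((3 / (2 * Real.pi)) ^ ((Fintype.card ι : ℝ) / 2) : ℝ) : ℂ) *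
        ((((2 * N : ℕ) : ℝ) ^ ((Fintype.card ι : ℝ) / 2) / (q * Real.exp (-(3 / 2))) ^ (2 * N) : ℝ) * I)
      = 2 * ((((3 / (2 * Real.pi)) ^ ((Fintype.card ι : ℝ) / 2) : ℝ) : ℂ) *
        ((((2 * N : ℕ) : ℝ) ^ ((Fintype.card ι : ℝ) / 2) : ℝ) : ℂ)) *
        (1 / (((q * Real.exp (-(3 / 2))) ^ (2 * N) : ℝ) : ℂ)) * I := by
        rw [Complex.ofReal_div]
        ring
    _ = 2 * ((((2 * Real.pi) ^ (-(Fintype.card ι : ℝ) / 2) : ℝ) : ℂ) * ((R ^ (Fintype.card ι) : ℝ) : ℂ)) *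
        ((R : ℂ) ^ (6 * N - 2 * f) * (((6 * (N : ℝ)) ^ f : ℝ) : ℂ) / ((NF q N : ℝ) : ℂ)) * I := by
        rw [r1c, r2c]
    _ = _ := by ring

end Pool.Agent.Helper67.T4
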